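/-
On a finite neighborhood frame a modal formula is equivalent to a positive one if and only if it is
preserved under directed bisimulations between models on the frame.
-/
import Mathlib

set_option autoImplicit false

open Set

namespace Pool.Agent.Results.MP_5daced_lc.FiniteFrames

universe u v

/-- Modal formulas over the variables `V`, in negation normal form. -/
inductive Fml (V : Type v) : Type v
  | pos : V → Fml V
  | neg : V → Fml V
  | bot : Fml V
  | top : Fml V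
  | and : Fml V → Fml V → Fml V
  | or : Fml V → Fml V → Fml V
  | dia : Fml V → Fml V
  | box : Fml V → Fml V

/-- The formula contains no literal `¬ p` with `p ∈ P`. -/
def Fml.Positive {V : Type v} (P : Set V) : Fml V → Prop
  | Fml.pos _ => True
  | Fml.neg p => p ∉ P
  | Fml.bot => True
  | Fml.top => True
  | Fml.and φ ψ => φ.Positive P ∧ ψ.Positive P
  | Fml.or φ ψ => φ.Positive P ∧ ψ.Positive P
  | Fml.dia φ => φ.Positive P
  | Fml.box φ => φ.Positive P

/-- A neighborhood frame: a monotone operation on the subsets of `W`. -/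
structure Frame (W : Type u) where
  /-- the operation -/
  dia : Set W → Set W
  mono : ∀ X Y : Set W, X ⊆ Y → dia X ⊆ dia Y

/-- The dual operation. -/
def Frame.box {W : Type u} (F : Frame W) (X : Set W) : Set W := (F.dia Xᶜ)ᶜ

/-- The truth set of a formula in the model given by the valuation `θ`. -/
def Fml.val {V : Type v} {W : Type u} (F : Frame W) (θ : V → Set W) : Fml V → Set W
  | Fml.pos p => θ p
  | Fml.neg p => (θ p)ᶜ
  | Fml.bot => ∅
  | Fml.top => univ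
  | Fml.and φ ψ => φ.val F θ ∩ ψ.val F θ
  | Fml.or φ ψ => φ.val F θ ∪ ψ.val F θ
  | Fml.dia φ => F.dia (φ.val F θ)
  | Fml.box φ => F.box (φ.val F θ)

/-- The image of a set under a relation. -/
def img {W₁ W₂ : Type u} (Z : W₁ → W₂ → Prop) (X : Set W₁) : Set W₂ := {y | ∃ x ∈ X, Z x y}

/-- `Z` is a bisimulation between the frames. -/
def Bisim {W₁ W₂ : Type u} (F₁ : Frame W₁) (F₂ : Frame W₂) (Z : W₁ → W₂ → Prop) : Prop :=
  (∀ X, img Z (F₁.dia X) ⊆ F₂.dia (img Z X)) ∧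
    ∀ X, img (fun y x => Z x y) (F₂.dia X) ⊆ F₁.dia (img (fun y x => Z x y) X)

/-- `Z` is a `P`-directed bisimulation between the models `(F₁, θ₁)` and `(F₂, θ₂)`. -/
def Directed {V : Type v} {W₁ W₂ : Type u} (P : Set V) (F₁ : Frame W₁) (F₂ : Frame W₂)
    (θ₁ : V → Set W₁) (θ₂ : V → Set W₂) (Z : W₁ → W₂ → Prop) : Prop :=
  Bisim F₁ F₂ Z ∧ (∀ p : V, img Z ((Fml.pos p).val F₁ θ₁) ⊆ (Fml.pos p).val F₂ θ₂) ∧
    ∀ p : V, p ∉ P → img Z ((Fml.neg p).val F₁ θ₁) ⊆ (Fml.neg p).val F₂ θ₂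

section

variable {V : Type v} {W : Type u} (F : Frame W) (P : Set V)

/-- positive formulas are preserved -/
theorem preserved {W₁ W₂ : Type u} {F₁ : Frame W₁} {F₂ : Frame W₂} {θ₁ : V → Set W₁}
    {θ₂ : V → Set W₂} {Z : W₁ → W₂ → Prop} (h : Directed P F₁ F₂ θ₁ θ₂ Z) (φ : Fml V)
    (hφ : φ.Positive P) : img Z (φ.val F₁ θ₁) ⊆ φ.val F₂ θ₂ := by
  induction φ with
  | pos p => exact h.2.1 p
  | neg p => exact h.2.2 p hφ
  | bot =>
    rintro y ⟨x, hx, -⟩
    exact hx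
  | top => exact subset_univ _
  | and φ ψ ih1 ih2 =>
    rintro y ⟨x, ⟨hx1, hx2⟩, hxy⟩
    exact ⟨ih1 hφ.1 ⟨x, hx1, hxy⟩, ih2 hφ.2 ⟨x, hx2, hxy⟩⟩
  | or φ ψ ih1 ih2 =>
    rintro y ⟨x, hx1 | hx2, hxy⟩
    · exact Or.inl (ih1 hφ.1 ⟨x, hx1, hxy⟩)
    · exact Or.inr (ih2 hφ.2 ⟨x, hx2, hxy⟩)
  | dia φ ih => exact (h.1.1 _).trans (F₂.mono _ _ (ih hφ))
  | box φ ih =>
    rintro y ⟨x, hx, hxy⟩ hy
    apply hx
    have h1 : x ∈ img (fun y x => Z x y) (F₂.dia (φ.val F₂ θ₂)ᶜ) := ⟨y, hy, hxy⟩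
    have h2 := h.1.2 _ h1
    refine F₁.mono _ _ ?_ h2
    rintro x' ⟨y', hy', hxy'⟩ hx'
    exact hy' (ih hφ ⟨x', hx', hxy'⟩)

/-- the variables of a formula -/
def Fml.vars : Fml V → Set V
  | Fml.pos p => {p}
  | Fml.neg p => {p}
  | Fml.bot => ∅
  | Fml.top => ∅
  | Fml.and φ ψ => φ.vars ∪ ψ.vars
  | Fml.or φ ψ => φ.vars ∪ ψ.vars
  | Fml.dia φ => φ.vars
  | Fml.box φ => φ.vars

theorem finite_vars (φ : Fml V) : φ.vars.Finite := by
  induction φ with
  | pos p => exact finite_singleton p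
  | neg p => exact finite_singleton p
  | bot => exact finite_empty
  | top => exact finite_empty
  | and φ ψ ih1 ih2 => exact ih1.union ih2
  | or φ ψ ih1 ih2 => exact ih1.union ih2
  | dia φ ih => exact ih
  | box φ ih => exact ih

theorem val_congr {θ θ' : V → Set W} (φ : Fml V) (h : ∀ p ∈ φ.vars, θ p = θ' p) :
    φ.val F θ = φ.val F θ' := by
  induction φ with
  | pos p => exact h p rfl
  | neg p => exact congrArg compl (h p rfl)
  | bot => rfl
  | top => rfl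
  | and φ ψ ih1 ih2 =>
    exact congrArg₂ (· ∩ ·) (ih1 fun p hp => h p (Or.inl hp)) (ih2 fun p hp => h p (Or.inr hp))
  | or φ ψ ih1 ih2 =>
    exact congrArg₂ (· ∪ ·) (ih1 fun p hp => h p (Or.inl hp)) (ih2 fun p hp => h p (Or.inr hp))
  | dia φ ih => exact congrArg F.dia (ih h)
  | box φ ih => exact congrArg F.box (ih h)

/-- the formulas used: positive, with variables in `V₀` -/
def Q (V₀ : Set V) (φ : Fml V) : Prop := φ.Positive P ∧ φ.vars ⊆ V₀

variable {P}

theorem exists_conj {V₀ : Set V} {ι : Type*} [Finite ι] (χ : ι → Fml V) (hχ : ∀ i, Q P V₀ (χ i)) :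
    ∃ ψ, Q P V₀ ψ ∧ ∀ θ : V → Set W, ψ.val F θ = ⋂ i, (χ i).val F θ := by
  classical
  have := Fintype.ofFinite ι
  have key : ∀ s : Finset ι, ∃ ψ, Q P V₀ ψ ∧ ∀ θ : V → Set W, ψ.val F θ = ⋂ i ∈ s, (χ i).val F θ := by
    intro s
    induction s using Finset.induction_on with
    | empty => exact ⟨Fml.top, ⟨trivial, empty_subset _⟩, fun θ => by simp [Fml.val]⟩
    | insert a s _ ih =>
      obtain ⟨ψ, h1, h2⟩ := ih
      refine ⟨Fml.and (χ a) ψ, ⟨⟨(hχ a).1, h1.1⟩, union_subset (hχ a).2 h1.2⟩, fun θ => ?_⟩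
      change (χ a).val F θ ∩ ψ.val F θ = _
      rw [h2 θ, Finset.set_biInter_insert]
  obtain ⟨ψ, h1, h2⟩ := key Finset.univ
  exact ⟨ψ, h1, fun θ => by rw [h2 θ]; simp⟩

theorem exists_disj {V₀ : Set V} {ι : Type*} [Finite ι] (χ : ι → Fml V) (hχ : ∀ i, Q P V₀ (χ i)) :
    ∃ ψ, Q P V₀ ψ ∧ ∀ θ : V → Set W, ψ.val F θ = ⋃ i, (χ i).val F θ := by
  classical
  have := Fintype.ofFinite ι
  have key : ∀ s : Finset ι, ∃ ψ, Q P V₀ ψ ∧ ∀ θ : V → Set W, ψ.val F θ = ⋃ i ∈ s, (χ i).val F θ := by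
    intro s
    induction s using Finset.induction_on with
    | empty => exact ⟨Fml.bot, ⟨trivial, empty_subset _⟩, fun θ => by simp [Fml.val]⟩
    | insert a s _ ih =>
      obtain ⟨ψ, h1, h2⟩ := ih
      refine ⟨Fml.or (χ a) ψ, ⟨⟨(hχ a).1, h1.1⟩, union_subset (hχ a).2 h1.2⟩, fun θ => ?_⟩
      change (χ a).val F θ ∪ ψ.val F θ = _
      rw [h2 θ, Finset.set_biUnion_insert]
  obtain ⟨ψ, h1, h2⟩ := key Finset.univ
  exact ⟨ψ, h1, fun θ => by rw [h2 θ]; simp⟩

/-- Separation of two families of points: if every point of the first family is separated from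
every point of the second by a formula, one formula separates the families. -/
theorem exists_sep {V₀ : Set V} {ι κ : Type*} [Finite ι] [Finite κ] (a : ι → (V → Set W) × W)
    (b : κ → (V → Set W) × W)
    (h : ∀ i j, ∃ χ, Q P V₀ χ ∧ (a i).2 ∈ χ.val F (a i).1 ∧ (b j).2 ∉ χ.val F (b j).1) :
    ∃ χ, Q P V₀ χ ∧ (∀ i, (a i).2 ∈ χ.val F (a i).1) ∧ ∀ j, (b j).2 ∉ χ.val F (b j).1 := by
  choose χ hQ h1 h2 using h
  have h3 : ∀ i, ∃ ψ, Q P V₀ ψ ∧ ∀ θ : V → Set W, ψ.val F θ = ⋂ j, (χ i j).val F θ :=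
    fun i => exists_conj F (χ i) (hQ i)
  choose ψ hψ h4 using h3
  obtain ⟨ξ, hξ, h5⟩ := exists_disj F ψ hψ
  refine ⟨ξ, hξ, fun i => ?_, fun j hj => ?_⟩
  · rw [h5]
    refine mem_iUnion.2 ⟨i, ?_⟩
    rw [h4]
    exact mem_iInter.2 fun j => h1 i j
  · rw [h5] at hj
    obtain ⟨i, hi⟩ := mem_iUnion.1 hj
    rw [h4] at hi
    exact h2 i j (mem_iInter.1 hi j)

/-- the canonical relation: preservation of all formulas of the class `Q` -/
def can (P : Set V) (V₀ : Set V) (θ₁ θ₂ : V → Set W) (x y : W) : Prop :=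
  ∀ χ : Fml V, Q P V₀ χ → x ∈ χ.val F θ₁ → y ∈ χ.val F θ₂

theorem can_bisim [Finite W] (V₀ : Set V) (θ₁ θ₂ : V → Set W) :
    Bisim F F (can F P V₀ θ₁ θ₂) := by
  constructor
  · rintro X y ⟨x, hx, hxy⟩
    obtain ⟨χ, hQ, h1, h2⟩ := exists_sep (P := P) (V₀ := V₀) F (fun i : X => (θ₁, (i : W)))
      (fun j : ((img (can F P V₀ θ₁ θ₂) X)ᶜ : Set W) => (θ₂, (j : W))) (by
        intro i j
        by_contra hc
        push Not at hc
        exact j.2 ⟨i, i.2, fun χ hχ hi => hc χ hχ hi⟩)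
    have h3 : X ⊆ χ.val F θ₁ := fun z hz => h1 ⟨z, hz⟩
    have h4 : χ.val F θ₂ ⊆ img (can F P V₀ θ₁ θ₂) X := by
      intro z hz
      by_contra hc
      exact h2 ⟨z, hc⟩ hz
    exact F.mono _ _ h4 (hxy (Fml.dia χ) hQ (F.mono _ _ h3 hx))
  · rintro X x ⟨y, hy, hxy⟩
    by_contra hcon
    obtain ⟨χ, hQ, h1, h2⟩ := exists_sep (P := P) (V₀ := V₀) F
      (fun i : ((img (fun y x => can F P V₀ θ₁ θ₂ x y) X)ᶜ : Set W) => (θ₁, (i : W)))
      (fun j : X => (θ₂, (j : W))) (by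
        intro i j
        by_contra hc
        push Not at hc
        exact i.2 ⟨j, j.2, fun χ hχ hi => hc χ hχ hi⟩)
    have h3 : (χ.val F θ₁)ᶜ ⊆ img (fun y x => can F P V₀ θ₁ θ₂ x y) X := by
      intro z hz
      by_contra hc
      exact hz (h1 ⟨z, hc⟩)
    have h4 : X ⊆ (χ.val F θ₂)ᶜ := fun z hz => h2 ⟨z, hz⟩
    have h5 : y ∈ (Fml.box χ).val F θ₂ := by
      refine hxy (Fml.box χ) hQ ?_
      intro h6
      exact hcon (F.mono _ _ h3 h6)
    exact h5 (F.mono _ _ h4 hy)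

end

/-- **Main theorem.** Let `F` be a finite neighborhood frame and `P` a set of variables. A formula is
equivalent in `F` to a `P`-positive formula if and only if it is preserved under every `P`-directed
bisimulation between two models on `F`. -/
theorem result : ∀ (V : Type v) (W : Type u) [Finite W] (F : Frame W) (P : Set V) (φ : Fml V),
    (∃ ψ : Fml V, ψ.Positive P ∧ ∀ θ : V → Set W, φ.val F θ = ψ.val F θ) ↔
      ∀ (θ₁ θ₂ : V → Set W) (Z : W → W → Prop), Directed P F F θ₁ θ₂ Z →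
        img Z (φ.val F θ₁) ⊆ φ.val F θ₂ := by
  intro V W _ F P φ
  classical
  constructor
  · rintro ⟨ψ, hψ, h⟩ θ₁ θ₂ Z hZ
    rw [h, h]
    exact preserved P hZ ψ hψ
  · intro hpres
    -- valuations supported by the variables of the formula
    let ext : (φ.vars → Set W) → V → Set W := fun θ p => if h : p ∈ φ.vars then θ ⟨p, h⟩ else ∅
    have hfin : Finite φ.vars := (finite_vars φ).to_subtype
    have hext : ∀ (θ : V → Set W) (χ : Fml V), χ.vars ⊆ φ.vars →
        χ.val F (ext fun p => θ p) = χ.val F θ := by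
      intro θ χ hχ
      apply val_congr
      intro p hp
      change (if h : p ∈ φ.vars then θ p else ∅) = θ p
      rw [dif_pos (hχ hp)]
    obtain ⟨χ, hQ, h1, h2⟩ := exists_sep (P := P) (V₀ := φ.vars) F
      (fun i : {z : (φ.vars → Set W) × W // z.2 ∈ φ.val F (ext z.1)} => (ext i.1.1, i.1.2))
      (fun i : {z : (φ.vars → Set W) × W // z.2 ∉ φ.val F (ext z.1)} => (ext i.1.1, i.1.2)) (by
        rintro ⟨⟨θ₁, x⟩, hx⟩ ⟨⟨θ₂, y⟩, hy⟩
        by_contra hc
        push Not at hc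
        apply hy
        refine hpres (ext θ₁) (ext θ₂) (can F P φ.vars (ext θ₁) (ext θ₂))
          ⟨can_bisim F φ.vars _ _, ?_, ?_⟩ ⟨x, hx, fun χ hχ h => hc χ hχ h⟩
        · rintro p z ⟨w, hw, hwz⟩
          by_cases hp : p ∈ φ.vars
          · exact hwz (Fml.pos p) ⟨trivial, singleton_subset_iff.2 hp⟩ hw
          · have h : (Fml.pos p).val F (ext θ₁) = ∅ := by
              change (if h : p ∈ φ.vars then θ₁ ⟨p, h⟩ else ∅) = ∅
              rw [dif_neg hp]
            rw [h] at hw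
            exact absurd hw (notMem_empty _)
        · rintro p hpP z ⟨w, hw, hwz⟩
          by_cases hp : p ∈ φ.vars
          · exact hwz (Fml.neg p) ⟨hpP, singleton_subset_iff.2 hp⟩ hw
          · have h : (Fml.neg p).val F (ext θ₂) = univ := by
              change (if h : p ∈ φ.vars then θ₂ ⟨p, h⟩ else ∅)ᶜ = univ
              rw [dif_neg hp, compl_empty]
            rw [h]
            exact mem_univ _)
    refine ⟨χ, hQ.1, fun θ => ?_⟩
    rw [← hext θ φ Subset.rfl, ← hext θ χ hQ.2]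
    ext w
    constructor
    · intro hw
      exact h1 ⟨⟨fun p => θ p, w⟩, hw⟩
    · intro hw
      by_contra hc
      exact h2 ⟨⟨fun p => θ p, w⟩, hc⟩ hw

end Pool.Agent.Results.MP_5daced_lc.FiniteFrames
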